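import Pool.Agent.U16.RB.Main

/-!
# The unweighted red-blue `s`-`t` cut problem in undirected graphs is NP-complete

The reduction is from CLIQUE. Let `G` be a graph and `k ≥ 2`. The new graph has the vertices of `G`,
two terminals `s`, `t`, and a node `x_e` for every edge `e` of `G`. For `e = uv` the node `x_e` is
joined by red edges to `u`, to `v` and to `s`, and every vertex `v` of `G` is joined to `t` by a
blue edge. For a cut given by `X` let `S` be the set of the vertices of `G` in `X`. Then the cut has
exactly `|S|` blue edges, and at least one red edge at `x_e` unless both ends of `e` are in `S`; for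
given `S` there is a cut with exactly one such edge for these `e` and none for the others. So there
is a cut with at most `k` blue edges and at most `|E(G)| - k (k - 1) / 2` red edges if and only if
some set of at most `k` vertices of `G` contains at least `k (k - 1) / 2` edges, i.e. if `G` has a
clique with `k` vertices.
-/

set_option autoImplicit false

namespace Pool.Agent.Results.MP_ad21dd_lc.NPComplete

open Pool.Agent.NPC Pool.Agent.U16.RB

/-- **The unweighted red-blue `s`-`t` cut problem in undirected graphs is NP-complete**, already for
simple graphs: it is in NP; it is NP-hard; and every problem in NP has a polynomial-time many-one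
reduction to it all of whose values are correct descriptions of simple graphs with coloured edges
and two distinct terminals. -/
theorem result :
    InNPP RedBlueCut ∧ NPHardP RedBlueCut ∧
    ∀ L : Set (List Bool), InNP L → ∃ f : List Bool → List Bool, PolyTime f ∧
      ∀ x, ∃ I : Inst, f x = bits I ∧ Valid I ∧ (x ∈ L ↔ RedBlueCut I) := by
  refine ⟨inNPP, hardPr.toHardI.toNPHardP, fun L hL => ?_⟩
  obtain ⟨f, hf, hpr, hfL⟩ := hardPr L hL
  exact ⟨fun x => bits (f x), PC.toPolyTime hf, fun x => ⟨f x, rfl, hpr x, hfL x⟩⟩

end Pool.Agent.Results.MP_ad21dd_lc.NPComplete
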